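import Mathlib
import Pool.Agent.H7R3.TfdwB

set_option autoImplicit false

open MeasureTheory Filter Topology Set
open scoped ENNReal NNReal ContDiff

namespace Pool.Agent.Results.MP_8b3296_mp.NeverMonotone

/-- Three dimensional Euclidean space. -/
abbrev R3 := EuclideanSpace ℝ (Fin 3)

/-- `ρ ∈ G_p`, and `g` is the weak gradient of `ρ^{1/2}`: `ρ ≥ 0`, `ρ ∈ L¹ ∩ L^p` and
`g = ∇ ρ^{1/2} ∈ L²` in the sense of distributions. -/
structure Admissible (p : ℝ) (ρ : R3 → ℝ) (g : R3 → R3) : Prop where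
  nonneg : ∀ x, 0 ≤ ρ x
  integrable : Integrable ρ
  integrable_rpow : Integrable (fun x => ρ x ^ p)
  grad_memLp : MemLp g 2
  grad_weak : ∀ φ : R3 → ℝ, ContDiff ℝ ∞ φ → HasCompactSupport φ → ∀ v : R3,
    ∫ x, √(ρ x) * fderiv ℝ φ x v = -∫ x, inner ℝ (g x) v * φ x

/-- The density `ρ₀` with `ρ₀^{p-4/3} = C_e p / (4 γ (p-1))`. -/
noncomputable def rho0 (γ Ce p : ℝ) : ℝ := (Ce * p / (4 * γ * (p - 1))) ^ (1 / (p - 4 / 3))

/-- `α = (3p-4)/(4(p-1)) ρ₀^{1/3} C_e`. -/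
noncomputable def alpha (γ Ce p : ℝ) : ℝ :=
  (3 * p - 4) / (4 * (p - 1)) * rho0 γ Ce p ^ ((1 : ℝ) / 3) * Ce

/-- `J_α(ρ) = (γ/p) ρ^p - (3 C_e/4) ρ^{4/3} + α ρ`. -/
noncomputable def Jalpha (γ Ce p : ℝ) (ρ : ℝ) : ℝ :=
  γ / p * ρ ^ p - 3 * Ce / 4 * ρ ^ ((4 : ℝ) / 3) + alpha γ Ce p * ρ

/-- The TFDW functional `𝓔_α(ρ)` (nuclear repulsion `U` included); the argument `g` is the weak
gradient of `ρ^{1/2}`. -/
noncomputable def energy (A γ Ce p : ℝ) {k : ℕ} (z : Fin k → ℝ) (R : Fin k → R3)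
    (ρ : R3 → ℝ) (g : R3 → R3) : ℝ :=
  A * (∫ x, ‖g x‖ ^ 2) + (∫ x, Jalpha γ Ce p (ρ x))
    - (∫ x, (∑ j, z j / ‖x - R j‖) * ρ x)
    + 1 / 2 * (∫ x, ∫ y, ρ x * ρ y / ‖x - y‖)
    + ∑ i, ∑ j, (if i < j then z i * z j / ‖R i - R j‖ else 0)

/-- The energies `𝓔_α(ρ)` of the `ρ ∈ G_p` with `∫ ρ = lam`. -/
def energySet (A γ Ce p : ℝ) {k : ℕ} (z : Fin k → ℝ) (R : Fin k → R3) (lam : ℝ) : Set ℝ :=
  {e | ∃ (ρ : R3 → ℝ) (g : R3 → R3), Admissible p ρ g ∧ ∫ x, ρ x = lam ∧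
    e = energy A γ Ce p z R ρ g}

/-- The energies `𝓔_α(ρ)` of the `ρ ∈ G_p` with `∫ ρ ≤ lam`. -/
def energySetLe (A γ Ce p : ℝ) {k : ℕ} (z : Fin k → ℝ) (R : Fin k → R3) (lam : ℝ) : Set ℝ :=
  {e | ∃ (ρ : R3 → ℝ) (g : R3 → R3), Admissible p ρ g ∧ ∫ x, ρ x ≤ lam ∧
    e = energy A γ Ce p z R ρ g}

/-- `E_α(lam) = inf {𝓔_α(ρ) : ρ ∈ G_p, ∫ ρ = lam}`. -/
noncomputable def Ealpha (A γ Ce p : ℝ) {k : ℕ} (z : Fin k → ℝ) (R : Fin k → R3) (lam : ℝ) : ℝ :=
  sInf (energySet A γ Ce p z R lam)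

/-- `Ê_α(lam) = inf {𝓔_α(ρ) : ρ ∈ G_p, ∫ ρ ≤ lam}`. -/
noncomputable def Ehat (A γ Ce p : ℝ) {k : ℕ} (z : Fin k → ℝ) (R : Fin k → R3) (lam : ℝ) : ℝ :=
  sInf (energySetLe A γ Ce p z R lam)

/-! ### Trial densities -/

/-- gradient vector of a real function -/
noncomputable def grad (ψ : R3 → ℝ) (x : R3) : R3 :=
  (InnerProductSpace.toDual ℝ R3).symm (fderiv ℝ ψ x)

lemma inner_grad (ψ : R3 → ℝ) (x v : R3) : inner ℝ (grad ψ x) v = fderiv ℝ ψ x v := by
  unfold grad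
  exact InnerProductSpace.toDual_symm_apply

lemma trial_admissible {p : ℝ} (hp : 4 / 3 < p) {ψ : R3 → ℝ} (hψ : ContDiff ℝ ∞ ψ)
    (hs : HasCompactSupport ψ) (h0 : ∀ x, 0 ≤ ψ x) :
    Admissible p (fun x => ψ x ^ 2) (grad ψ) := by
  have hsq : ∀ x, √(ψ x ^ 2) = ψ x := fun x => Real.sqrt_sq (h0 x)
  have hs2 : HasCompactSupport (fun x => ψ x ^ 2) := by
    have h1 : HasCompactSupport (fun x => ψ x * ψ x) := hs.mul_left
    simpa only [pow_two] using h1
  have hint2 : Integrable (fun x => ψ x ^ 2) :=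
    (hψ.continuous.pow 2).integrable_of_hasCompactSupport hs2
  have hgc : Continuous (grad ψ) := by
    have h1 : Continuous (fun L : StrongDual ℝ R3 => (InnerProductSpace.toDual ℝ R3).symm L) :=
      LinearIsometryEquiv.continuous _
    have h2 : Continuous (fderiv ℝ ψ) := hψ.continuous_fderiv (by simp)
    exact h1.comp h2
  have hgs : HasCompactSupport (grad ψ) := by
    have h1 : HasCompactSupport (fun x => (InnerProductSpace.toDual ℝ R3).symm (fderiv ℝ ψ x)) :=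
      (hs.fderiv ℝ).comp_left (g := fun L : StrongDual ℝ R3 =>
        (InnerProductSpace.toDual ℝ R3).symm L) (map_zero _)
    exact h1
  refine ⟨fun x => by positivity, hint2, ?_, ?_, ?_⟩
  · refine Continuous.integrable_of_hasCompactSupport
      ((hψ.continuous.pow 2).rpow_const fun x => Or.inr (by linarith)) ?_
    refine hs.comp_left (g := fun t : ℝ => (t ^ 2) ^ p) ?_
    rw [zero_pow two_ne_zero, Real.zero_rpow (by linarith)]
  · exact hgc.memLp_of_hasCompactSupport hgs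
  · intro φ hφ hφs v
    simp only [hsq, inner_grad]
    have hc1 : Continuous fun x => fderiv ℝ ψ x v :=
      (hψ.continuous_fderiv (by simp)).clm_apply continuous_const
    have hc2 : Continuous fun x => fderiv ℝ φ x v :=
      (hφ.continuous_fderiv (by simp)).clm_apply continuous_const
    refine integral_mul_fderiv_eq_neg_fderiv_mul_of_integrable ?_ ?_ ?_ ?_ ?_
    · exact (hc1.mul hφ.continuous).integrable_of_hasCompactSupport hφs.mul_left
    · exact (hψ.continuous.mul hc2).integrable_of_hasCompactSupport hs.mul_right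
    · exact (hψ.continuous.mul hφ.continuous).integrable_of_hasCompactSupport hs.mul_right
    · intro x _; exact (hψ.differentiable (by simp)) x
    · intro x _; exact (hφ.differentiable (by simp)) x

/-- Densities of every mass exist. -/
lemma exists_admissible {p : ℝ} (hp : 4 / 3 < p) {lam : ℝ} (hlam : 0 ≤ lam) :
    ∃ (ρ : R3 → ℝ) (g : R3 → R3), Admissible p ρ g ∧ ∫ x, ρ x = lam := by
  let b : ContDiffBump (0 : R3) := ⟨1, 2, one_pos, one_lt_two⟩
  have hb : ContDiff ℝ ∞ b := b.contDiff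
  have hbs : HasCompactSupport b := b.hasCompactSupport
  have hs2 : HasCompactSupport (fun x => b x ^ 2) := by
    have h1 : HasCompactSupport (fun x => b x * b x) := hbs.mul_left
    simpa only [pow_two] using h1
  have hint2 : Integrable (fun x => b x ^ 2) :=
    (hb.continuous.pow 2).integrable_of_hasCompactSupport hs2
  have hpos : 0 < ∫ x, b x ^ 2 := by
    rw [integral_pos_iff_support_of_nonneg (fun x => by positivity) hint2]
    have h1 : Metric.ball (0 : R3) 1 ⊆ Function.support (fun x => b x ^ 2) := by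
      intro x hx
      have : b x = 1 := b.one_of_mem_closedBall (Metric.ball_subset_closedBall hx)
      simp [this]
    exact lt_of_lt_of_le (Metric.measure_ball_pos _ _ one_pos) (measure_mono h1)
  set I := ∫ x, b x ^ 2 with hI
  let ψ : R3 → ℝ := fun x => √(lam / I) * b x
  have hψ : ContDiff ℝ ∞ ψ := contDiff_const.mul hb
  have hψs : HasCompactSupport ψ := hbs.mul_left
  refine ⟨fun x => ψ x ^ 2, grad ψ, trial_admissible hp hψ hψs
    (fun x => mul_nonneg (Real.sqrt_nonneg _) b.nonneg), ?_⟩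
  have h1 : ∀ x, ψ x ^ 2 = lam / I * b x ^ 2 := by
    intro x
    show (√(lam / I) * b x) ^ 2 = _
    rw [mul_pow, Real.sq_sqrt (by positivity)]
  simp only [h1]
  rw [integral_const_mul, ← hI]
  field_simp

/-! ### The lower bound -/

lemma toSmall {p : ℝ} {ρ : R3 → ℝ} {g : R3 → R3} (h : Admissible p ρ g) :
    MP_369429_mp.SmallCharge.Admissible p ρ g :=
  ⟨h.nonneg, h.integrable, h.integrable_rpow, h.grad_memLp, h.grad_weak⟩

/-- `A ∫|∇√ρ|² + ∫ J_α(ρ)` -/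
noncomputable def XX (A γ Ce p : ℝ) (ρ : R3 → ℝ) (g : R3 → R3) : ℝ :=
  A * (∫ x, ‖g x‖ ^ 2) + ∫ x, Jalpha γ Ce p (ρ x)

lemma energy_lower {A γ Ce p : ℝ} (hA : 0 < A) (hγ : 0 < γ) (hCe : 0 < Ce) (hp : 4 / 3 < p)
    {k : ℕ} (hk : 1 ≤ k) (z : Fin k → ℝ) (R : Fin k → R3) (hz : ∀ j, 0 < z j)
    {ρ : R3 → ℝ} {g : R3 → R3} (h : Admissible p ρ g) :
    0 ≤ XX A γ Ce p ρ g ∧
    3 / 4 * XX A γ Ce p ρ g - 8 * (∑ j, z j) ^ 3 / A ≤ energy A γ Ce p z R ρ g := by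
  obtain ⟨c, hc0, hc⟩ := MP_369429_mp.SmallCharge.ff_lower hA hγ hCe hp
  have hkey := fun a => MP_369429_mp.SmallCharge.key hA hγ hCe hp hc0 hc (toSmall h) a
  set Z := ∑ j, z j with hZ
  have hZpos : 0 < Z := by
    have : Nonempty (Fin k) := ⟨⟨0, hk⟩⟩
    exact Finset.sum_pos (fun j _ => hz j) Finset.univ_nonempty
  have hXX : XX A γ Ce p ρ g = A * (∫ x, ‖g x‖ ^ 2) +
      ∫ x, MP_369429_mp.SmallCharge.Jalpha γ Ce p (ρ x) := rfl
  have hG : 0 ≤ ∫ x, ‖g x‖ ^ 2 := integral_nonneg fun x => by positivity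
  have hJ : 0 ≤ ∫ x, Jalpha γ Ce p (ρ x) :=
    integral_nonneg fun x => MP_369429_mp.SmallCharge.Jalpha_nonneg hγ hCe hp (h.nonneg x)
  set X := XX A γ Ce p ρ g with hX
  have hXe : X = A * (∫ x, ‖g x‖ ^ 2) + ∫ x, Jalpha γ Ce p (ρ x) := rfl
  have hX0 : 0 ≤ X := by rw [hXe]; positivity
  have hB : ∀ a, Integrable (fun x => ρ x / ‖x - a‖) ∧ ∫ x, ρ x / ‖x - a‖ ≤ X / (2 * c) := by
    intro a
    refine ⟨(hkey a).1, ?_⟩
    rw [le_div_iff₀ (by positivity)]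
    have := (hkey a).2
    rw [← hXX] at this
    linarith
  have hH := Pool.Agent.H7R3.TfdwB.coulomb_integrable h.nonneg h.integrable hB
  set D := ∫ x, ∫ y, ρ x * ρ y / ‖x - y‖ with hD
  set G := ∫ x, ‖g x‖ ^ 2 with hGdef
  have hT : 0 < 16 * Z / A := by positivity
  have hatt : ∀ a, Z * ∫ x, ρ x / ‖x - a‖ ≤ 1 / 2 * D + 8 * Z ^ 3 / A + A / 4 * G := by
    intro a
    have := Pool.Agent.H7R3.TfdwB.attraction hp (toSmall h) hH a (hB a).1 hT hZpos.le
    have e1 : Z ^ 2 * (16 * Z / A) / 2 = 8 * Z ^ 3 / A := by ring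
    have e2 : 4 * Z / (16 * Z / A) = A / 4 := by field_simp; norm_num
    rw [e1, e2] at this
    exact this
  have hV : ∫ x, (∑ j, z j / ‖x - R j‖) * ρ x = ∑ j, z j * ∫ x, ρ x / ‖x - R j‖ := by
    have h1 : ∀ x, (∑ j, z j / ‖x - R j‖) * ρ x = ∑ j, z j * (ρ x / ‖x - R j‖) := by
      intro x
      rw [Finset.sum_mul]
      refine Finset.sum_congr rfl fun j _ => ?_
      ring
    simp only [h1]
    rw [integral_finsetSum _ fun j _ => (hB (R j)).1.const_mul _]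
    simp only [integral_const_mul]
  have hVle : ∑ j, z j * ∫ x, ρ x / ‖x - R j‖ ≤ 1 / 2 * D + 8 * Z ^ 3 / A + A / 4 * G := by
    calc ∑ j, z j * ∫ x, ρ x / ‖x - R j‖
        ≤ ∑ j, z j * ((1 / 2 * D + 8 * Z ^ 3 / A + A / 4 * G) / Z) := by
          refine Finset.sum_le_sum fun j _ => mul_le_mul_of_nonneg_left ?_ (hz j).le
          rw [le_div_iff₀ hZpos, mul_comm]
          exact hatt (R j)
      _ = Z * ((1 / 2 * D + 8 * Z ^ 3 / A + A / 4 * G) / Z) := by rw [← Finset.sum_mul]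
      _ = _ := by field_simp
  have hU : 0 ≤ ∑ i, ∑ j, (if i < j then z i * z j / ‖R i - R j‖ else 0) := by
    refine Finset.sum_nonneg fun i _ => Finset.sum_nonneg fun j _ => ?_
    split_ifs
    · exact div_nonneg (mul_nonneg (hz i).le (hz j).le) (norm_nonneg _)
    · exact le_rfl
  refine ⟨hX0, ?_⟩
  unfold energy
  rw [hV]
  have h9 : A / 4 * G ≤ X / 4 := by
    rw [hXe]; linarith
  have h10 : A * G + (∫ x, Jalpha γ Ce p (ρ x)) = X := hXe.symm
  linarith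

/-- **Disproof of Q1, for every choice of the data.** For all constants `A, γ, C_e > 0`, `p > 4/3`
and every system of nuclei: `E_α(lam)` is a genuine infimum for every `lam ≥ 0`, it tends to
`+∞` as `lam → ∞`; in particular `E_α` is not nonincreasing on `[0,∞)`, and
`Ê_α(lam) < E_α(lam)` for all large `lam`. -/
theorem result :
    ∀ (A γ Ce p : ℝ), 0 < A → 0 < γ → 0 < Ce → 4 / 3 < p →
      ∀ (k : ℕ), 1 ≤ k → ∀ (z : Fin k → ℝ) (R : Fin k → EuclideanSpace ℝ (Fin 3)),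
        (∀ j, 0 < z j) → Function.Injective R →
        (∀ lam : ℝ, 0 ≤ lam →
          IsGLB (energySet A γ Ce p z R lam) (Ealpha A γ Ce p z R lam)) ∧
        Tendsto (Ealpha A γ Ce p z R) atTop atTop ∧
        ¬ AntitoneOn (Ealpha A γ Ce p z R) (Set.Ici 0) ∧
        ∀ᶠ lam in atTop, Ehat A γ Ce p z R lam < Ealpha A γ Ce p z R lam := by
  intro A γ Ce p hA hγ hCe hp k hk z R hz _hR
  obtain ⟨C₁, C₂, hC₁, hC₂, hC⟩ := MP_369429_mp.SmallCharge.smooth_mass hA hγ hCe hp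
  have hlow := fun (ρ : R3 → ℝ) (g : R3 → R3) (h : Admissible p ρ g) =>
    energy_lower hA hγ hCe hp hk z R hz h
  set C := 8 * (∑ j, z j) ^ 3 / A with hCdef
  have hbdd : ∀ lam, BddBelow (energySet A γ Ce p z R lam) := by
    intro lam
    refine ⟨-C, ?_⟩
    rintro e ⟨ρ, g, h, -, rfl⟩
    have := hlow ρ g h
    linarith [this.1, this.2]
  have hbdd' : ∀ lam, BddBelow (energySetLe A γ Ce p z R lam) := by
    intro lam
    refine ⟨-C, ?_⟩
    rintro e ⟨ρ, g, h, -, rfl⟩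
    have := hlow ρ g h
    linarith [this.1, this.2]
  have hne : ∀ lam, 0 ≤ lam → (energySet A γ Ce p z R lam).Nonempty := by
    intro lam hlam
    obtain ⟨ρ, g, h, hm⟩ := exists_admissible hp hlam
    exact ⟨_, ρ, g, h, hm, rfl⟩
  have hT : Tendsto (Ealpha A γ Ce p z R) atTop atTop := by
    rw [tendsto_atTop]
    intro M
    set Y : ℝ := max 0 (4 / 3 * (M + C)) with hY
    have hY0 : 0 ≤ Y := le_max_left _ _
    filter_upwards [eventually_ge_atTop (max 0 (C₁ * Y + C₂ * Y ^ ((3:ℝ)/2) + 1))] with lam hlam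
    have hlam0 : 0 ≤ lam := (le_max_left _ _).trans hlam
    have hlam1 : C₁ * Y + C₂ * Y ^ ((3:ℝ)/2) + 1 ≤ lam := (le_max_right _ _).trans hlam
    refine le_csInf (hne lam hlam0) ?_
    rintro e ⟨ρ, g, h, hm, rfl⟩
    obtain ⟨hX0, hE⟩ := hlow ρ g h
    have hmass := MP_369429_mp.SmallCharge.mass_bound hA hγ hCe hp hC₁ hC₂ hC (toSmall h)
    rw [hm] at hmass
    change lam ≤ C₁ * (XX A γ Ce p ρ g) + C₂ * (XX A γ Ce p ρ g) ^ ((3:ℝ)/2) at hmass
    have hXY : Y < XX A γ Ce p ρ g := by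
      by_contra hcon
      have hcon' := not_lt.mp hcon
      have h1 : C₁ * (XX A γ Ce p ρ g) ≤ C₁ * Y := mul_le_mul_of_nonneg_left hcon' hC₁.le
      have h2 : C₂ * (XX A γ Ce p ρ g) ^ ((3:ℝ)/2) ≤ C₂ * Y ^ ((3:ℝ)/2) :=
        mul_le_mul_of_nonneg_left (Real.rpow_le_rpow hX0 hcon' (by norm_num)) hC₂
      linarith
    have h3 : 4 / 3 * (M + C) ≤ Y := le_max_right _ _
    linarith
  refine ⟨fun lam hlam => isGLB_csInf (hne lam hlam) (hbdd lam), hT, ?_, ?_⟩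
  · intro hanti
    obtain ⟨lam, hlam, h1⟩ := ((eventually_ge_atTop (0:ℝ)).and
      (hT.eventually_ge_atTop (Ealpha A γ Ce p z R 0 + 1))).exists
    have h2 := hanti (Set.mem_Ici.mpr (le_refl (0:ℝ))) (Set.mem_Ici.mpr hlam) hlam
    linarith
  · filter_upwards [eventually_ge_atTop (0:ℝ),
      hT.eventually_ge_atTop (Ealpha A γ Ce p z R 0 + 1)] with lam hlam h1
    have h2 : Ehat A γ Ce p z R lam ≤ Ealpha A γ Ce p z R 0 := by
      refine csInf_le_csInf (hbdd' lam) (hne 0 le_rfl) ?_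
      rintro e ⟨ρ, g, h, hm, rfl⟩
      exact ⟨ρ, g, h, by rw [hm]; exact hlam, rfl⟩
    linarith

end Pool.Agent.Results.MP_8b3296_mp.NeverMonotone
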